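import Pool.Agent.Helper49.KR.St

/-! Project KR (MP_c973ff_an), module SPL: the rank is superadditive in the window. -/

set_option autoImplicit false

namespace Pool.Agent.Helper40.KR

open Finset Module
open Pool.Agent.Helper49.KX Pool.Agent.Helper49.KR

/-- the vectors of length `a` at the positions `o, ..., o + a - 1` -/
noncomputable def io (o a r : ℕ) : (Fin a → ℂ) →ₗ[ℂ] (Fin r → ℂ) where
  toFun := fun w k => if h : o ≤ (k : ℕ) ∧ (k : ℕ) - o < a then w ⟨(k : ℕ) - o, h.2⟩ else 0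
  map_add' := by
    intro x y
    ext k
    simp only [Pi.add_apply]
    split_ifs with h
    · rfl
    · simp
  map_smul' := by
    intro c x
    ext k
    simp only [Pi.smul_apply, RingHom.id_apply]
    split_ifs with h
    · rfl
    · simp

theorem io_apply (o a r : ℕ) (w : Fin a → ℂ) (k : Fin r) :
    io o a r w k = if h : o ≤ (k : ℕ) ∧ (k : ℕ) - o < a then w ⟨(k : ℕ) - o, h.2⟩ else 0 := rfl

theorem io_pos {o a r : ℕ} (w : Fin a → ℂ) (k : Fin r) (j : Fin a) (h : (k : ℕ) = o + j) :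
    io o a r w k = w j := by
  rw [io_apply]
  have h1 : o ≤ (k : ℕ) ∧ (k : ℕ) - o < a := by
    have := j.2
    omega
  rw [dif_pos h1]
  congr 1
  apply Fin.ext
  simp only
  omega

theorem io_sum {o a r : ℕ} (h : o + a ≤ r) (F : Fin r → ℂ) (w : Fin a → ℂ) :
    ∑ i : Fin r, F i * io o a r w i = ∑ j : Fin a, F ⟨o + j, by have := j.2; omega⟩ * w j := by
  symm
  refine Finset.sum_of_injOn (fun j : Fin a => (⟨o + j, by have := j.2; omega⟩ : Fin r)) ?_ ?_ ?_ ?_
  · intro x _ y _ hxy
    have h1 := congrArg Fin.val hxy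
    simp only at h1
    apply Fin.ext
    omega
  · intro x _
    simp
  · intro i _ hi
    rw [io_apply]
    by_cases h1 : o ≤ (i : ℕ) ∧ (i : ℕ) - o < a
    · exfalso
      apply hi
      refine ⟨⟨(i : ℕ) - o, h1.2⟩, by simp, ?_⟩
      apply Fin.ext
      simp only
      omega
    · rw [dif_neg h1, mul_zero]
  · intro j _
    rw [io_pos w _ j rfl]

theorem io_mem {o a r N : ℕ} (h : o + a ≤ r) (w : Fin a → ℂ) (hw : w ∈ Zs a (SB a N)) :
    io o a r w ∈ Zs r (SB r N) := by
  intro i hi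
  rw [io_apply]
  split_ifs with h1
  · apply hw
    simp only [SB, Finset.mem_filter, Finset.mem_univ, true_and] at hi ⊢
    omega
  · rfl

theorem io_comm {o a r N : ℕ} (θ s : ℝ) (g : FS X0) (hg : Deg g N) (h : o + a ≤ r) (w : Fin a → ℂ)
    (hw : w ∈ Zs a (SB a N)) :
    Matrix.mulVec (cw θ r g s) (io o a r w) = io o a r (Matrix.mulVec (cw θ a g (s + o * θ)) w) := by
  ext k
  have h1 : Matrix.mulVec (cw θ r g s) (io o a r w) k = ∑ i : Fin r, cw θ r g s k i * io o a r w i := rfl
  rw [h1, io_sum h, io_apply]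
  split_ifs with h2
  · have h3 : Matrix.mulVec (cw θ a g (s + o * θ)) w ⟨(k : ℕ) - o, h2.2⟩
      = ∑ j : Fin a, cw θ a g (s + o * θ) ⟨(k : ℕ) - o, h2.2⟩ j * w j := rfl
    rw [h3]
    refine Finset.sum_congr rfl fun j _ => ?_
    congr 1
    unfold cw
    have h4 : (((k : ℕ) : ℤ) - (((o + j : ℕ)) : ℤ)) = ((((k : ℕ) - o : ℕ) : ℤ) - ((j : ℕ) : ℤ)) := by
      push_cast [h2.1]
      ring
    have h5 : (s + ((k : ℕ) : ℝ) * θ : ℝ) = (s + o * θ + (((k : ℕ) - o : ℕ) : ℝ) * θ : ℝ) := by
      push_cast [h2.1]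
      ring
    simp only
    rw [h4, h5]
  · refine Finset.sum_eq_zero fun j _ => ?_
    by_cases hj : j ∈ SB a N
    · rw [hw j hj, mul_zero]
    · have h3 : g (((k : ℕ) : ℤ) - (((o + j : ℕ)) : ℤ)) = 0 := by
        apply hg
        simp only [SB, Finset.mem_filter, Finset.mem_univ, true_and] at hj
        have := j.2
        rw [lt_abs]
        omega
      have h6 : cw θ r g s k ⟨o + j, by have := j.2; omega⟩ = 0 := by
        unfold cw
        simp only
        rw [h3]
        rfl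
      rw [h6, zero_mul]

theorem io_inj {o a r : ℕ} (h : o + a ≤ r) : Function.Injective (io o a r) := by
  intro x y hxy
  ext j
  have h1 := congrFun hxy ⟨o + j, by have := j.2; omega⟩
  rw [io_pos x _ j rfl, io_pos y _ j rfl] at h1
  exact h1

theorem two {a b r N : ℕ} (θ s : ℝ) (g : FS X0) (hg : Deg g N) (h : a + b ≤ r) :
    rk θ a g N s + rk θ b g N (s + a * θ) ≤ rk θ r g N s := by
  unfold rk
  set A := (im (cw θ a g s) (SB a N)).map (io 0 a r) with hA
  set B := (im (cw θ b g (s + a * θ)) (SB b N)).map (io a b r) with hB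
  have e1 : finrank ℂ A = finrank ℂ (im (cw θ a g s) (SB a N)) :=
    (LinearEquiv.finrank_eq (Submodule.equivMapOfInjective (io 0 a r) (io_inj (by omega)) _)).symm
  have e2 : finrank ℂ B = finrank ℂ (im (cw θ b g (s + a * θ)) (SB b N)) :=
    (LinearEquiv.finrank_eq (Submodule.equivMapOfInjective (io a b r) (io_inj h) _)).symm
  have h1 : A ≤ im (cw θ r g s) (SB r N) := by
    rintro _ ⟨_, ⟨w, hw, rfl⟩, rfl⟩
    refine ⟨io 0 a r w, io_mem (by omega) w hw, ?_⟩
    have h2 := io_comm (o := 0) (r := r) θ s g hg (by omega) w hw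
    rw [Nat.cast_zero, zero_mul, add_zero] at h2
    exact h2
  have h2 : B ≤ im (cw θ r g s) (SB r N) := by
    rintro _ ⟨_, ⟨w, hw, rfl⟩, rfl⟩
    exact ⟨io a b r w, io_mem h w hw, io_comm θ s g hg h w hw⟩
  have h3 : A ⊓ B = ⊥ := by
    rw [eq_bot_iff]
    rintro _ ⟨⟨x, hx, rfl⟩, ⟨y, hy, hxy⟩⟩
    rw [Submodule.mem_bot]
    have h4 : x = 0 := by
      ext j
      have h5 := congrFun hxy ⟨j, by have := j.2; omega⟩
      rw [io_pos (o := 0) x _ j (by simp), io_apply] at h5
      rw [dif_neg] at h5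
      · rw [← h5]
        rfl
      · have := j.2
        simp only
        omega
    rw [h4, map_zero]
  have h4 := Submodule.finrank_sup_add_finrank_inf_eq A B
  rw [h3, finrank_bot, add_zero] at h4
  rw [← e1, ← e2, ← h4]
  exact Submodule.finrank_mono (sup_le h1 h2)

theorem hSPL : StSpl := by
  intro θ g N ℓ n
  induction n with
  | zero =>
    intro r s _ _
    simp
  | succ n ih =>
    intro r s hg hr
    rw [Finset.sum_range_succ]
    have h1 := ih (n * ℓ) s hg le_rfl
    have h2 := two (a := n * ℓ) (b := ℓ) (r := r) θ s g hg (by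
      have : (n + 1) * ℓ = n * ℓ + ℓ := by ring
      omega)
    have h3 : s + ((n * ℓ : ℕ) : ℝ) * θ = s + (n : ℝ) * ((ℓ : ℝ) * θ) := by
      push_cast
      ring
    rw [h3] at h2
    omega

end Pool.Agent.Helper40.KR
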